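import Pool.Agent.Helper7.KT.St

set_option autoImplicit false

namespace Pool.Agent.Helper57.KT

open Finset SimpleGraph Filter Topology
open EX Pool.Agent.Helper7.KT

open scoped Classical

/-- Smaller powers are small. -/
private theorem pow_small (K δ p : ℝ) (q : ℕ) (hδ : 0 < δ) (hpq : p < q) :
    ∀ᶠ n : ℕ in atTop, K * (n : ℝ) ^ p ≤ δ * (n : ℝ) ^ q := by
  have h1 : Tendsto (fun x : ℝ => x ^ ((q : ℝ) - p)) atTop atTop :=
    tendsto_rpow_atTop (by linarith)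
  have h2 : Tendsto (fun n : ℕ => (n : ℝ) ^ ((q : ℝ) - p)) atTop atTop :=
    h1.comp tendsto_natCast_atTop_atTop
  filter_upwards [h2.eventually_ge_atTop (K / δ), eventually_gt_atTop 0] with n hn hn0
  have hn1 : (0 : ℝ) < n := by exact_mod_cast hn0
  have h3 : K ≤ δ * (n : ℝ) ^ ((q : ℝ) - p) := by
    rw [div_le_iff₀ hδ] at hn
    linarith
  have h4 : (n : ℝ) ^ ((q : ℝ) - p) * (n : ℝ) ^ p = (n : ℝ) ^ q := by
    rw [← Real.rpow_add hn1, sub_add_cancel, Real.rpow_natCast]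
  calc K * (n : ℝ) ^ p ≤ (δ * (n : ℝ) ^ ((q : ℝ) - p)) * (n : ℝ) ^ p :=
        mul_le_mul_of_nonneg_right h3 (Real.rpow_nonneg hn1.le _)
    _ = δ * (n : ℝ) ^ q := by rw [mul_assoc, h4]

/-- A power of `d` and of `d - 1`. -/
private theorem pow_pred (e : ℝ) (he : 0 < e) (d : ℕ) :
    (d : ℝ) ^ e ≤ (2 : ℝ) ^ e * (((d - 1 : ℕ) : ℝ) ^ e + 1) := by
  have h2 : (1 : ℝ) ≤ (2 : ℝ) ^ e := Real.one_le_rpow (by norm_num) he.le
  have hnn : (0 : ℝ) ≤ ((d - 1 : ℕ) : ℝ) ^ e := Real.rpow_nonneg (Nat.cast_nonneg _) _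
  rcases Nat.lt_or_ge d 2 with hd | hd
  · have h1 : (d : ℝ) ^ e ≤ 1 := by
      apply Real.rpow_le_one (Nat.cast_nonneg _) _ he.le
      exact_mod_cast (by omega : d ≤ 1)
    nlinarith
  · have h1 : (d : ℝ) ≤ 2 * ((d - 1 : ℕ) : ℝ) := by
      exact_mod_cast (by omega : d ≤ 2 * (d - 1))
    have h3 : (d : ℝ) ^ e ≤ (2 : ℝ) ^ e * ((d - 1 : ℕ) : ℝ) ^ e := by
      rw [← Real.mul_rpow (by norm_num) (Nat.cast_nonneg _)]
      exact Real.rpow_le_rpow (Nat.cast_nonneg _) h1 he.le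
    nlinarith

/-- KME. -/
theorem hKME (hKMS : StKMS) (hLNK : StLNK) (hCLQ : StCLQ) (hPSB : StPSB) : StKME := by
  intro r t D hr ht ε hε
  obtain ⟨k, rfl⟩ : ∃ k, r = k + 3 := ⟨r - 3, by omega⟩
  obtain ⟨b, hb⟩ : ∃ b, (k + 3).choose 2 = b + 1 := by
    have : 0 < (k + 3).choose 2 := Nat.choose_pos (by omega)
    exact ⟨(k + 3).choose 2 - 1, by omega⟩
  have hjb : k + 2 ≤ b := by
    have h1 : (k + 3).choose 2 = (k + 2) + (k + 2).choose 2 := by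
      rw [Nat.choose_succ_succ' (k + 2) 1, Nat.choose_one_right]
    have h2 : 0 < (k + 2).choose 2 := Nat.choose_pos (by omega)
    omega
  have hb2 : 2 ≤ b := by omega
  have hbR : (b : ℝ) = ((k : ℝ) + 1) * ((k : ℝ) + 4) / 2 := by
    have h1 : (((k + 3).choose 2 : ℕ) : ℝ) = (b : ℝ) + 1 := by rw [hb]; push_cast; ring
    rw [Nat.cast_choose_two] at h1
    push_cast at h1
    linarith
  have hk0 : (0 : ℝ) ≤ k := Nat.cast_nonneg k
  have hbpos : (0 : ℝ) < b := by rw [hbR]; positivity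
  obtain ⟨e, he⟩ : ∃ e : ℝ, e = ((k + 2 : ℕ) : ℝ) - (((k + 2).choose 2 : ℕ) : ℝ) / (b : ℝ) := ⟨_, rfl⟩
  have heR : e = ((k : ℝ) + 2) * ((k : ℝ) + 3) / ((k : ℝ) + 4) := by
    rw [he, Nat.cast_choose_two, hbR]
    push_cast
    field_simp
    ring
  have he1 : 1 ≤ e := by
    rw [heR, le_div_iff₀ (by positivity)]
    nlinarith
  have hek : e ≤ (k : ℝ) + 2 := by
    rw [heR, div_le_iff₀ (by positivity)]
    nlinarith
  have heb : e ≤ b := by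
    refine hek.trans ?_
    exact_mod_cast hjb
  have he0 : 0 < e := by linarith
  -- the final exponent
  have hE : 1 + e - e / b < ((k + 2 : ℕ) : ℝ) := by
    have h1 : e / b = 2 * (((k : ℝ) + 2) * ((k : ℝ) + 3)) /
        (((k : ℝ) + 1) * ((k : ℝ) + 4) * ((k : ℝ) + 4)) := by
      rw [heR, hbR]
      field_simp
    have h2 : 1 + e - e / b - ((k : ℝ) + 2) =
        -(4 / (((k : ℝ) + 1) * ((k : ℝ) + 4) * ((k : ℝ) + 4))) := by
      rw [h1, heR]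
      field_simp
      ring
    have h3 : 0 < 4 / (((k : ℝ) + 1) * ((k : ℝ) + 4) * ((k : ℝ) + 4)) := by positivity
    push_cast
    linarith
  obtain ⟨C₁, hC₁, hclq⟩ := hCLQ t ht (k + 2) (by omega) b hjb 1 one_pos
  obtain ⟨C₂, hC₂, hpsb⟩ := hPSB b e (D : ℝ) hb2 he1 heb (Nat.cast_nonneg D) 1 one_pos
  obtain ⟨c, hc⟩ : ∃ c : ℝ, c = (((t - 1 : ℕ) : ℝ) ^ ((((k + 2).choose 2 : ℕ) : ℝ) / (b : ℝ)) /
    ((k + 2).factorial : ℝ) + 1) := ⟨_, rfl⟩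
  have hc0 : 0 ≤ c := by
    rw [hc]
    have h1 : (0 : ℝ) ≤ ((t - 1 : ℕ) : ℝ) ^ ((((k + 2).choose 2 : ℕ) : ℝ) / (b : ℝ)) :=
      Real.rpow_nonneg (Nat.cast_nonneg _) _
    positivity
  have h2e : (0 : ℝ) ≤ (2 : ℝ) ^ e := Real.rpow_nonneg (by norm_num) _
  filter_upwards [pow_small (c * 2 ^ e * ((D : ℝ) ^ (e / b) + 1)) (ε / 3) (1 + e - e / b) (k + 2)
      (by linarith) hE,
    pow_small (c * 2 ^ e + C₁) (ε / 3) 1 (k + 2) (by linarith) (by push_cast; linarith),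
    pow_small (c * 2 ^ e * C₂) (ε / 3) 0 (k + 2) (by linarith) (by push_cast; linarith)]
    with n hn1 hn2 hn3
  intro Γ hKF N hN
  rw [hb] at hKF
  have hN' : ∑ v ∈ N, (dg Γ univ v - 1).choose b ≤ D * n.choose b := by
    have h1 : (k + 3).choose 2 - 1 = b := by omega
    rw [h1] at hN
    exact hN
  have hNn : N.card ≤ n := by
    have := Finset.card_le_univ N
    rwa [Fintype.card_fin] at this
  -- one vertex
  have hone : ∀ v ∈ N, (kc Γ (k + 2) (nb Γ univ v) : ℝ) ≤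
      c * (2 ^ e * ((((dg Γ univ v - 1 : ℕ) : ℝ)) ^ e + 1)) + C₁ := by
    intro v _
    have h1 := hclq (Fin n) Γ (nb Γ univ v) (hLNK (Fin n) Γ b t univ v (mem_univ v) hKF)
    rw [← hc, ← he] at h1
    have h2 : ((nb Γ univ v).card : ℝ) ^ e ≤ 2 ^ e * ((((dg Γ univ v - 1 : ℕ) : ℝ)) ^ e + 1) :=
      pow_pred e he0 (dg Γ univ v)
    have h3 := mul_le_mul_of_nonneg_left h2 hc0
    linarith
  have hsum : (km Γ (k + 3) N : ℝ) ≤
      ∑ v ∈ N, (c * (2 ^ e * ((((dg Γ univ v - 1 : ℕ) : ℝ)) ^ e + 1)) + C₁) := by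
    have h1 := hKMS (Fin n) Γ (k + 2) N
    have h2 : (km Γ (k + 3) N : ℝ) ≤ ∑ v ∈ N, (kc Γ (k + 2) (nb Γ univ v) : ℝ) := by
      exact_mod_cast h1
    exact h2.trans (Finset.sum_le_sum hone)
  have hpow := hpsb (Fin n) N (fun v => dg Γ univ v - 1) n hNn (by exact_mod_cast hN')
  have hexp : ∑ v ∈ N, (c * (2 ^ e * ((((dg Γ univ v - 1 : ℕ) : ℝ)) ^ e + 1)) + C₁) =
      c * 2 ^ e * ∑ v ∈ N, (((dg Γ univ v - 1 : ℕ) : ℝ)) ^ e +
        (c * 2 ^ e + C₁) * (N.card : ℝ) := by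
    rw [Finset.sum_add_distrib, Finset.sum_const, nsmul_eq_mul, ← Finset.mul_sum,
      ← Finset.mul_sum, Finset.sum_add_distrib, Finset.sum_const, nsmul_eq_mul]
    ring
  rw [hexp] at hsum
  have hNnR : (N.card : ℝ) ≤ n := by exact_mod_cast hNn
  have hcc : 0 ≤ c * 2 ^ e := mul_nonneg hc0 h2e
  have h5 := mul_le_mul_of_nonneg_left hpow hcc
  have h6 := mul_le_mul_of_nonneg_left hNnR (add_nonneg hcc hC₁)
  rw [Real.rpow_one] at hn2
  rw [Real.rpow_zero, mul_one] at hn3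
  have h7 : (k + 3) - 1 = k + 2 := by omega
  rw [h7]
  have h8 : c * 2 ^ e * (((D : ℝ) ^ (e / b) + 1) * (n : ℝ) ^ (1 + e - e / b) + C₂) =
      c * 2 ^ e * ((D : ℝ) ^ (e / b) + 1) * (n : ℝ) ^ (1 + e - e / b) + c * 2 ^ e * C₂ := by ring
  rw [h8] at h5
  linarith

end Pool.Agent.Helper57.KT
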